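import Mathlib

set_option autoImplicit false

open Set Topology

namespace Pool.Agent.H866Z.DRef

universe u

/-- The specialization order: `x ≤ y` iff `x` lies in the closure of `{y}`. -/
def SpLe {X : Type u} [TopologicalSpace X] (x y : X) : Prop :=
  x ∈ closure ({y} : Set X)

/-- A `d`-space (monotone convergence space): a `T0` space in which every directed subset `D`
(nonempty, any two members have an upper bound in `D`) for the specialization order has a
supremum `s`, and every open set containing `s` meets `D`. -/
def IsDSpace (X : Type u) [TopologicalSpace X] : Prop :=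
  T0Space X ∧ ∀ D : Set X, D.Nonempty → (∀ a ∈ D, ∀ b ∈ D, ∃ c ∈ D, SpLe a c ∧ SpLe b c) →
    ∃ s : X, (∀ d ∈ D, SpLe d s) ∧ (∀ t : X, (∀ d ∈ D, SpLe d t) → SpLe s t) ∧
      ∀ U : Set X, IsOpen U → s ∈ U → (D ∩ U).Nonempty

/-- `μ : X → Xd` is a `d`-reflection: `Xd` is a `d`-space, `μ` is continuous, and every continuous
map from `X` to a `d`-space factors uniquely through `μ` by a continuous map. -/
def IsDReflection {X Xd : Type u} [TopologicalSpace X] [TopologicalSpace Xd] (μ : X → Xd) : Prop :=
  IsDSpace Xd ∧ Continuous μ ∧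
    ∀ (Y : Type u) [TopologicalSpace Y], IsDSpace Y → ∀ f : X → Y, Continuous f →
      ∃! g : Xd → Y, Continuous g ∧ g ∘ μ = f

end Pool.Agent.H866Z.DRef
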