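import Mathlib
import Pool.Agent.H866Z.DRefDefs

set_option autoImplicit false

open Set Topology

namespace Pool.Agent.H866Z.DRef

universe u

section basic
variable {X : Type u} [TopologicalSpace X]

theorem spLe_iff {x y : X} : SpLe x y ↔ ∀ U : Set X, IsOpen U → x ∈ U → y ∈ U := by
  unfold SpLe
  rw [mem_closure_iff]
  constructor
  · intro h U hU hx
    obtain ⟨w, hw, hw'⟩ := h U hU hx
    rw [mem_singleton_iff] at hw'
    rwa [hw'] at hw
  · intro h U hU hx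
    exact ⟨y, h U hU hx, rfl⟩

theorem SpLe.refl (x : X) : SpLe x x := spLe_iff.2 fun _ _ h => h

theorem SpLe.trans {x y z : X} (h : SpLe x y) (h' : SpLe y z) : SpLe x z :=
  spLe_iff.2 fun U hU hx => spLe_iff.1 h' U hU (spLe_iff.1 h U hU hx)

theorem SpLe.antisymm [T0Space X] {x y : X} (h : SpLe x y) (h' : SpLe y x) : x = y := by
  apply Inseparable.eq
  rw [inseparable_iff_forall_isOpen]
  intro U hU
  exact ⟨spLe_iff.1 h U hU, spLe_iff.1 h' U hU⟩

theorem SpLe.map {Y : Type u} [TopologicalSpace Y] {f : X → Y} (hf : Continuous f) {x y : X}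
    (h : SpLe x y) : SpLe (f x) (f y) :=
  spLe_iff.2 fun U hU hx => spLe_iff.1 h (f ⁻¹' U) (hU.preimage hf) hx

/-- directed sets -/
def Dir (D : Set X) : Prop :=
  D.Nonempty ∧ ∀ a ∈ D, ∀ b ∈ D, ∃ c ∈ D, SpLe a c ∧ SpLe b c

/-- `s` is an upper bound of `D` in its closure -/
def Lim (D : Set X) (s : X) : Prop :=
  (∀ d ∈ D, SpLe d s) ∧ ∀ U : Set X, IsOpen U → s ∈ U → (D ∩ U).Nonempty

theorem Lim.least {D : Set X} {s : X} (h : Lim D s) (t : X) (ht : ∀ d ∈ D, SpLe d t) :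
    SpLe s t := by
  rw [spLe_iff]
  intro U hU hs
  obtain ⟨d, hd, hdU⟩ := h.2 U hU hs
  exact spLe_iff.1 (ht d hd) U hU hdU

theorem Lim.unique [T0Space X] {D : Set X} {s t : X} (h : Lim D s) (h' : Lim D t) : s = t :=
  (h.least t h'.1).antisymm (h'.least s h.1)

theorem isDSpace_iff : IsDSpace X ↔ T0Space X ∧ ∀ D : Set X, Dir D → ∃ s, Lim D s := by
  constructor
  · rintro ⟨h0, h⟩
    refine ⟨h0, fun D hD => ?_⟩
    obtain ⟨s, h1, _, h3⟩ := h D hD.1 hD.2
    exact ⟨s, h1, h3⟩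
  · rintro ⟨h0, h⟩
    refine ⟨h0, fun D h1 h2 => ?_⟩
    obtain ⟨s, hs⟩ := h D ⟨h1, h2⟩
    exact ⟨s, hs.1, hs.least, hs.2⟩

theorem Dir.image {Y : Type u} [TopologicalSpace Y] {D : Set X} (hD : Dir D) {f : X → Y}
    (hf : ∀ a ∈ D, ∀ b ∈ D, SpLe a b → SpLe (f a) (f b)) : Dir (f '' D) := by
  refine ⟨hD.1.image f, ?_⟩
  rintro _ ⟨a, ha, rfl⟩ _ ⟨b, hb, rfl⟩
  obtain ⟨c, hc, h1, h2⟩ := hD.2 a ha b hb
  exact ⟨f c, ⟨c, hc, rfl⟩, hf a ha c hc h1, hf b hb c hc h2⟩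

theorem Lim.image {Y : Type u} [TopologicalSpace Y] {D : Set X} {s : X} (h : Lim D s) {f : X → Y}
    (hf : Continuous f) : Lim (f '' D) (f s) := by
  refine ⟨?_, fun U hU hs => ?_⟩
  · rintro _ ⟨d, hd, rfl⟩
    exact (h.1 d hd).map hf
  · obtain ⟨d, hd, hdU⟩ := h.2 (f ⁻¹' U) (hU.preimage hf) hs
    exact ⟨f d, ⟨d, hd, rfl⟩, hdU⟩

/-- sets closed under directed limits -/
def DClosed (S : Set X) : Prop :=
  ∀ D : Set X, D ⊆ S → Dir D → ∀ s, Lim D s → s ∈ S

theorem DClosed.preimage {Y : Type u} [TopologicalSpace Y] {S : Set Y} (hS : DClosed S)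
    {f : X → Y} (hf : Continuous f) : DClosed (f ⁻¹' S) := by
  intro D hDS hD s hs
  exact hS (f '' D) (image_subset_iff.2 hDS) (hD.image fun a _ b _ h => h.map hf) _ (hs.image hf)

theorem spLe_subtype {S : Set X} {a b : S} : SpLe a b ↔ SpLe (a : X) (b : X) := by
  refine ⟨fun h => h.map continuous_subtype_val, fun h => spLe_iff.2 fun U hU ha => ?_⟩
  obtain ⟨V, hV, rfl⟩ := isOpen_induced_iff.1 hU
  exact spLe_iff.1 h V hV ha

theorem IsDSpace.subtype (hX : IsDSpace X) {S : Set X} (hS : DClosed S) : IsDSpace S := by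
  rw [isDSpace_iff] at hX ⊢
  obtain ⟨h0, h⟩ := hX
  refine ⟨inferInstance, fun D hD => ?_⟩
  have hD' : Dir ((↑) '' D : Set X) := hD.image fun a _ b _ h => h.map continuous_subtype_val
  obtain ⟨s, hs⟩ := h _ hD'
  have hsS : s ∈ S := hS _ (by rintro _ ⟨a, _, rfl⟩; exact a.2) hD' s hs
  refine ⟨⟨s, hsS⟩, fun d hd => spLe_subtype.2 (hs.1 d ⟨d, hd, rfl⟩), fun U hU hsU => ?_⟩
  obtain ⟨V, hV, rfl⟩ := isOpen_induced_iff.1 hU
  obtain ⟨_, ⟨d, hd, rfl⟩, hdV⟩ := hs.2 V hV hsU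
  exact ⟨d, hd, hdV⟩

theorem dClosed_eq {Y : Type u} [TopologicalSpace Y] [T0Space Y] {g g' : X → Y}
    (hg : Continuous g) (hg' : Continuous g') : DClosed {x | g x = g' x} := by
  intro D hDS _ s hs
  have h1 := hs.image hg
  have h2 := hs.image hg'
  have : g '' D = g' '' D := image_congr fun a ha => hDS ha
  rw [this] at h1
  exact h1.unique h2

theorem isDSpace_sierp : IsDSpace (ULift.{u} Prop) := by
  rw [isDSpace_iff]
  have hopen : ∀ U : Set (ULift.{u} Prop), IsOpen U → ∀ a b : ULift.{u} Prop, a ∈ U →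
      (a.down → b.down) → b ∈ U := by
    intro U hU a b ha hab
    have hU' : IsOpen (ULift.up ⁻¹' U : Set Prop) := hU.preimage continuous_uliftUp
    have hspec : b.down ⤳ a.down := by
      by_cases h : a.down
      · have : a.down = b.down := propext ⟨fun _ => hab h, fun _ => h⟩
        rw [this]
      · rw [specializes_iff_forall_open]
        intro V hV hV'
        induction hV with
        | basic t ht =>
          rw [mem_singleton_iff] at ht
          subst ht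
          exact absurd (of_eq_true hV') h
        | univ => trivial
        | inter s t _ _ h1 h2 => exact ⟨h1 hV'.1, h2 hV'.2⟩
        | sUnion S _ h1 =>
          obtain ⟨t, ht, hat⟩ := hV'
          exact ⟨t, ht, h1 t ht hat⟩
    exact hspec.mem_open hU' ha
  refine ⟨inferInstance, fun D hD => ⟨⟨∃ d ∈ D, d.down⟩, fun d hd => ?_, fun U hU hs => ?_⟩⟩
  · exact spLe_iff.2 fun U hU h => hopen U hU d _ h fun h' => ⟨d, hd, h'⟩
  · by_cases h : ∃ d ∈ D, d.down
    · obtain ⟨d, hd, h'⟩ := h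
      exact ⟨d, hd, hopen U hU _ d hs fun _ => h'⟩
    · obtain ⟨d, hd⟩ := hD.1
      exact ⟨d, hd, hopen U hU _ d hs fun h' => absurd h' h⟩

end basic

section refl
variable {X Xd : Type u} [TopologicalSpace X] [TopologicalSpace Xd] {μ : X → Xd}

theorem IsDReflection.dense (h : IsDReflection μ) {S : Set Xd} (hS : DClosed S)
    (hμ : ∀ x, μ x ∈ S) (t : Xd) : t ∈ S := by
  obtain ⟨hd, hc, hu⟩ := h
  obtain ⟨g, ⟨hg, hgμ⟩, -⟩ := hu S (hd.subtype hS) (fun x => ⟨μ x, hμ x⟩) (hc.subtype_mk _)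
  obtain ⟨k, -, hk⟩ := hu Xd hd μ hc
  have h1 := hk (fun t => (g t : Xd)) ⟨continuous_subtype_val.comp hg, by
    funext x
    have := congrFun hgμ x
    simp only [Function.comp] at this ⊢
    rw [this]⟩
  have h2 := hk id ⟨continuous_id, rfl⟩
  have h3 : (g t : Xd) = t := congrFun (h1.trans h2.symm) t
  rw [← h3]
  exact (g t).2

theorem IsDReflection.exists_open (h : IsDReflection μ) {U : Set X} (hU : IsOpen U) :
    ∃ V : Set Xd, IsOpen V ∧ ∀ x, μ x ∈ V ↔ x ∈ U := by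
  obtain ⟨g, ⟨hg, hgμ⟩, -⟩ := h.2.2 (ULift.{u} Prop) isDSpace_sierp (fun x => ⟨x ∈ U⟩)
    (continuous_uliftUp.comp (continuous_Prop.2 hU))
  refine ⟨{t | (g t).down}, continuous_Prop.1 (continuous_uliftDown.comp hg), fun x => ?_⟩
  have := congrFun hgμ x
  simp only [Function.comp] at this
  simp [this]

theorem IsDReflection.isOpen_hat (h : IsDReflection μ) {U : Set X} (hU : IsOpen U) :
    IsOpen {t : Xd | ∃ a ∈ U, SpLe (μ a) t} := by
  obtain ⟨V, hV, hVU⟩ := h.exists_open hU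
  have : {t : Xd | ∃ a ∈ U, SpLe (μ a) t} = V := by
    ext t
    constructor
    · rintro ⟨a, ha, hat⟩
      exact spLe_iff.1 hat V hV ((hVU a).2 ha)
    · refine h.dense (S := {t | t ∈ V → ∃ a ∈ U, SpLe (μ a) t}) ?_ ?_ t
      · intro D hDS _ s hs hsV
        obtain ⟨d, hd, hdV⟩ := hs.2 V hV hsV
        obtain ⟨a, ha, had⟩ := hDS hd hdV
        exact ⟨a, ha, had.trans (hs.1 d hd)⟩
      · intro x hx
        exact ⟨x, (hVU x).1 hx, SpLe.refl _⟩
  rw [this]
  exact hV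

theorem IsDReflection.exists_le (h : IsDReflection μ) (t : Xd) : ∃ a, SpLe (μ a) t := by
  refine h.dense (S := {t | ∃ a, SpLe (μ a) t}) ?_ (fun x => ⟨x, SpLe.refl _⟩) t
  intro D hDS hD s hs
  obtain ⟨d, hd⟩ := hD.1
  obtain ⟨a, ha⟩ := hDS hd
  exact ⟨a, ha.trans (hs.1 d hd)⟩

theorem IsDReflection.reflect (h : IsDReflection μ) {a b : X} (hab : SpLe (μ a) (μ b)) :
    SpLe a b := by
  rw [spLe_iff]
  intro U hU ha
  obtain ⟨V, hV, hVU⟩ := h.exists_open hU
  exact (hVU b).1 (spLe_iff.1 hab V hV ((hVU a).2 ha))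

theorem IsDReflection.homeo {Z : Type u} [TopologicalSpace Z] {ν : X → Z}
    (h : IsDReflection μ) (h' : IsDReflection ν) : ∃ e : Z ≃ₜ Xd, e ∘ ν = μ := by
  obtain ⟨g, ⟨hg, hgν⟩, -⟩ := h'.2.2 Xd h.1 μ h.2.1
  obtain ⟨k, ⟨hk, hkμ⟩, -⟩ := h.2.2 Z h'.1 ν h'.2.1
  obtain ⟨i1, -, hi1⟩ := h.2.2 Xd h.1 μ h.2.1
  obtain ⟨i2, -, hi2⟩ := h'.2.2 Z h'.1 ν h'.2.1
  have e1 : g ∘ k = id :=
    (hi1 (g ∘ k) ⟨hg.comp hk, by rw [Function.comp_assoc, hkμ, hgν]⟩).trans
      (hi1 id ⟨continuous_id, rfl⟩).symm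
  have e2 : k ∘ g = id :=
    (hi2 (k ∘ g) ⟨hk.comp hg, by rw [Function.comp_assoc, hgν, hkμ]⟩).trans
      (hi2 id ⟨continuous_id, rfl⟩).symm
  exact ⟨⟨⟨g, k, fun z => congrFun e2 z, fun z => congrFun e1 z⟩, hg, hk⟩, hgν⟩

end refl

section prod
variable {I : Type u}

theorem spLe_pi {X : I → Type u} [∀ i, TopologicalSpace (X i)] {x y : ∀ i, X i} :
    SpLe x y ↔ ∀ i, SpLe (x i) (y i) := by
  unfold SpLe
  rw [← specializes_iff_mem_closure, specializes_pi]
  simp only [specializes_iff_mem_closure]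

theorem isDSpace_pi {X : I → Type u} [∀ i, TopologicalSpace (X i)] (h : ∀ i, IsDSpace (X i)) :
    IsDSpace (∀ i, X i) := by
  classical
  have h0 : ∀ i, T0Space (X i) := fun i => (h i).1
  rw [isDSpace_iff]
  refine ⟨inferInstance, fun D hD => ?_⟩
  have hDi : ∀ i, Dir ((fun x : ∀ i, X i => x i) '' D) := fun i =>
    hD.image fun a _ b _ hab => spLe_pi.1 hab i
  choose s hs using fun i => (isDSpace_iff.1 (h i)).2 _ (hDi i)
  refine ⟨s, fun d hd => spLe_pi.2 fun i => (hs i).1 _ ⟨d, hd, rfl⟩, fun U hU hsU => ?_⟩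
  obtain ⟨F, W, hW, hFW⟩ := isOpen_pi_iff.1 hU s hsU
  have key : ∀ G : Finset I, G ⊆ F → ∃ d ∈ D, ∀ i ∈ G, d i ∈ W i := by
    intro G
    induction G using Finset.induction_on with
    | empty =>
      intro _
      obtain ⟨d, hd⟩ := hD.1
      exact ⟨d, hd, by simp⟩
    | insert j G hj ih =>
      intro hG
      obtain ⟨d, hd, hdW⟩ := ih ((Finset.subset_insert _ _).trans hG)
      have hjF : j ∈ F := hG (Finset.mem_insert_self _ _)
      obtain ⟨_, ⟨d', hd', rfl⟩, hd'W⟩ := (hs j).2 (W j) (hW j hjF).1 (hW j hjF).2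
      obtain ⟨c, hc, h1, h2⟩ := hD.2 d hd d' hd'
      refine ⟨c, hc, fun i hi => ?_⟩
      rcases Finset.mem_insert.1 hi with rfl | hi'
      · exact spLe_iff.1 (spLe_pi.1 h2 i) _ (hW i hjF).1 hd'W
      · exact spLe_iff.1 (spLe_pi.1 h1 i) _ (hW i (hG hi)).1 (hdW i hi')
  obtain ⟨d, hd, hdW⟩ := key F le_rfl
  exact ⟨d, hd, hFW fun i hi => hdW i hi⟩

variable {X Xd : I → Type u} [∀ i, TopologicalSpace (X i)] [∀ i, TopologicalSpace (Xd i)]
  {μ : ∀ i, X i → Xd i}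

theorem pi_dense (h : ∀ i, IsDReflection (μ i)) {S : Set (∀ i, Xd i)} (hS : DClosed S)
    (hμ : ∀ x : ∀ i, X i, (fun i => μ i (x i)) ∈ S) (z : ∀ i, Xd i) : z ∈ S := by
  classical
  have step : ∀ F : Finset I, ∀ w : ∀ i, Xd i, (∀ i, i ∉ F → ∃ a, μ i a = w i) → w ∈ S := by
    intro F
    induction F using Finset.induction_on with
    | empty =>
      intro w hw
      choose a ha using fun i => hw i (Finset.notMem_empty i)
      have : w = fun i => μ i (a i) := funext fun i => (ha i).symm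
      rw [this]
      exact hμ a
    | insert j F hj ih =>
      intro w hw
      have hc : Continuous fun t : Xd j => Function.update w j t :=
        continuous_const.update j continuous_id
      have := (h j).dense (hS.preimage hc) (fun x => ih _ fun i hi => by
        by_cases hij : i = j
        · subst hij
          exact ⟨x, by simp⟩
        · simp only [Function.update_of_ne hij]
          exact hw i (by simp [hij, hi])) (w j)
      simpa using this
  choose a ha using fun i => (h i).exists_le (z i)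
  let w : Finset I → ∀ i, Xd i := fun F i => if i ∈ F then z i else μ i (a i)
  have hmono : ∀ F G : Finset I, F ⊆ G → SpLe (w F) (w G) := by
    intro F G hFG
    refine spLe_pi.2 fun i => ?_
    by_cases h1 : i ∈ F
    · simp only [w, h1, hFG h1, if_true]
      exact SpLe.refl _
    · by_cases h2 : i ∈ G
      · simp only [w, h1, h2, if_true, if_false]
        exact ha i
      · simp only [w, h1, h2, if_false]
        exact SpLe.refl _
  refine hS (range w) ?_ ⟨range_nonempty _, ?_⟩ z ⟨?_, fun U hU hz => ?_⟩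
  · rintro _ ⟨F, rfl⟩
    exact step F _ fun i hi => ⟨a i, by simp [w, hi]⟩
  · rintro _ ⟨F, rfl⟩ _ ⟨G, rfl⟩
    exact ⟨w (F ∪ G), ⟨_, rfl⟩, hmono _ _ Finset.subset_union_left,
      hmono _ _ Finset.subset_union_right⟩
  · rintro _ ⟨F, rfl⟩
    refine spLe_pi.2 fun i => ?_
    by_cases h1 : i ∈ F
    · simp only [w, h1, if_true]
      exact SpLe.refl _
    · simp only [w, h1, if_false]
      exact ha i
  · obtain ⟨F, W, hW, hFW⟩ := isOpen_pi_iff.1 hU z hz
    refine ⟨w F, ⟨F, rfl⟩, hFW fun i hi => ?_⟩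
    have hi' : i ∈ F := hi
    simp only [w, hi', if_true]
    exact (hW i hi').2

theorem pi_isOpen_hat (h : ∀ i, IsDReflection (μ i)) {U : Set (∀ i, X i)} (hU : IsOpen U) :
    IsOpen {z : ∀ i, Xd i | ∃ x ∈ U, SpLe (fun i => μ i (x i)) z} := by
  classical
  rw [isOpen_pi_iff]
  rintro z ⟨x, hx, hxz⟩
  obtain ⟨F, W, hW, hFW⟩ := isOpen_pi_iff.1 hU x hx
  refine ⟨F, fun i => {t | ∃ a ∈ W i, SpLe (μ i a) t}, fun i hi =>
    ⟨(h i).isOpen_hat (hW i hi).1, x i, (hW i hi).2, spLe_pi.1 hxz i⟩, fun z' hz' => ?_⟩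
  have : ∀ i, ∃ a, (i ∈ F → a ∈ W i) ∧ SpLe (μ i a) (z' i) := by
    intro i
    by_cases hi : i ∈ F
    · obtain ⟨a, ha, haz⟩ := hz' i hi
      exact ⟨a, fun _ => ha, haz⟩
    · obtain ⟨a, ha⟩ := (h i).exists_le (z' i)
      exact ⟨a, fun h' => absurd h' hi, ha⟩
  choose a ha using this
  exact ⟨a, hFW fun i hi => (ha i).1 hi, spLe_pi.2 fun i => (ha i).2⟩

theorem pi_isDReflection (h : ∀ i, IsDReflection (μ i)) :
    IsDReflection (fun (x : ∀ i, X i) (i : I) => μ i (x i)) := by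
  refine ⟨isDSpace_pi fun i => (h i).1,
    continuous_pi fun i => (h i).2.1.comp (continuous_apply i), fun Y _ hY f hf => ?_⟩
  have hY0 : T0Space Y := hY.1
  have hex : ∀ z : ∀ i, Xd i, ∃ y : Y, ∀ V : Set Y, IsOpen V →
      (y ∈ V ↔ ∃ x ∈ f ⁻¹' V, SpLe (fun i => μ i (x i)) z) := by
    refine pi_dense h (S := {z | ∃ y : Y, ∀ V : Set Y, IsOpen V →
      (y ∈ V ↔ ∃ x ∈ f ⁻¹' V, SpLe (fun i => μ i (x i)) z)}) ?_ ?_
    · intro D hDS hD s hs
      have : Nonempty Y := by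
        obtain ⟨d, hd⟩ := hD.1
        obtain ⟨y, _⟩ := hDS hd
        exact ⟨y⟩
      choose! y hy using hDS
      have hyD : Dir (y '' D) := hD.image fun a ha b hb hab => spLe_iff.2 fun V hV hV' => by
        obtain ⟨x, hx, hxa⟩ := (hy ha V hV).1 hV'
        exact (hy hb V hV).2 ⟨x, hx, hxa.trans hab⟩
      obtain ⟨t, ht⟩ := (isDSpace_iff.1 hY).2 _ hyD
      refine ⟨t, fun V hV => ⟨fun htV => ?_, fun hx => ?_⟩⟩
      · obtain ⟨_, ⟨d, hd, rfl⟩, hdV⟩ := ht.2 V hV htV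
        obtain ⟨x, hx, hxd⟩ := (hy hd V hV).1 hdV
        exact ⟨x, hx, hxd.trans (hs.1 d hd)⟩
      · obtain ⟨d, hd, hdV⟩ := hs.2 _ (pi_isOpen_hat h (hV.preimage hf)) hx
        exact spLe_iff.1 (ht.1 _ ⟨d, hd, rfl⟩) V hV ((hy hd V hV).2 hdV)
    · intro x0
      refine ⟨f x0, fun V hV => ⟨fun hx => ⟨x0, hx, SpLe.refl _⟩, ?_⟩⟩
      rintro ⟨x, hx, hxx⟩
      have : SpLe x x0 := spLe_pi.2 fun i => (h i).reflect (spLe_pi.1 hxx i)
      exact spLe_iff.1 (this.map hf) V hV hx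
  choose g hg using hex
  have hgc : Continuous g := by
    rw [continuous_def]
    intro V hV
    have : g ⁻¹' V = {z : ∀ i, Xd i | ∃ x ∈ f ⁻¹' V, SpLe (fun i => μ i (x i)) z} := by
      ext z
      exact hg z V hV
    rw [this]
    exact pi_isOpen_hat h (hV.preimage hf)
  have hgf : g ∘ (fun (x : ∀ i, X i) (i : I) => μ i (x i)) = f := by
    funext x0
    apply SpLe.antisymm
    · rw [spLe_iff]
      intro V hV hV'
      obtain ⟨x, hx, hxx⟩ := (hg _ V hV).1 hV'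
      have : SpLe x x0 := spLe_pi.2 fun i => (h i).reflect (spLe_pi.1 hxx i)
      exact spLe_iff.1 (this.map hf) V hV hx
    · rw [spLe_iff]
      intro V hV hV'
      exact (hg _ V hV).2 ⟨x0, hV', SpLe.refl _⟩
  refine ⟨g, ⟨hgc, hgf⟩, fun g' hg' => funext fun z => ?_⟩
  exact pi_dense h (dClosed_eq hg'.1 hgc) (fun x => (congrFun hg'.2 x).trans (congrFun hgf x).symm) z

end prod

end Pool.Agent.H866Z.DRef
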